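import Pool.Agent.Run7.h465.UP.Iface

/-!
# Finitely generated nilpotent torsion groups are finite (piece NTF)
-/

set_option autoImplicit false

namespace Run7.h576.UP

open Run7.h465.UP

theorem ntf : S_NTF := by
  intro G _ hn hf ht
  have key : ∀ (n : ℕ) (G : Type) [Group G] [Group.IsNilpotent G] [Group.FG G],
      Group.nilpotencyClass G = n → (∀ g : G, IsOfFinOrder g) → Finite G := by
    intro n
    induction n with
    | zero =>
      intro G _ _ _ hc _
      have : Subsingleton G := Group.nilpotencyClass_zero_iff_subsingleton.1 hc
      infer_instance
    | succ n ih =>
      intro G _ _ _ hc ht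
      have h1 : Finite (G ⧸ Subgroup.center G) := by
        have h2 : Group.FG (G ⧸ Subgroup.center G) := inferInstance
        apply ih (G ⧸ Subgroup.center G)
        · rw [Group.nilpotencyClass_quotient_center, hc]; rfl
        · intro g
          obtain ⟨x, rfl⟩ := QuotientGroup.mk_surjective g
          exact MonoidHom.isOfFinOrder (QuotientGroup.mk' (Subgroup.center G)) (ht x)
      have h3 : (Subgroup.center G).FiniteIndex := Subgroup.finiteIndex_of_finite_quotient
      have h4 : Group.FG (Subgroup.center G) := by
        exact Subgroup.fg_of_index_ne_zero (Subgroup.center G)
      have h5 : Finite (Subgroup.center G) := by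
        let c : CommGroup (Subgroup.center G) :=
          { (inferInstance : Group (Subgroup.center G)) with
            mul_comm := fun a b => by
              apply Subtype.ext
              exact (Subgroup.mem_center_iff.1 b.2 a.1) }
        have h4' : @Group.FG (Subgroup.center G) (CommGroup.toGroup) := h4
        apply @CommGroup.finite_of_fg_isMulTorsion (Subgroup.center G) c h4'
        intro x
        have := ht x.1
        exact Submonoid.isOfFinOrder_coe.1 this
      exact Finite.of_subgroup_quotient (Subgroup.center G)
  exact key _ G rfl ht

end Run7.h576.UP
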