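import Pool.Agent.Run7.h465.UP.Iface

/-!
# The elements of order prime to p (piece PPART)
-/

set_option autoImplicit false

namespace Run7.h576.UP

open Run7.h465.UP

lemma ppart_aux {H : Type} [Group H] [Finite H] [hH : Group.IsNilpotent H] (p : ℕ)
    [hp : Fact p.Prime] (x y : H) (hx : ¬ p ∣ orderOf x) (hy : ¬ p ∣ orderOf y) :
    ¬ p ∣ orderOf (x * y) := by
  obtain ⟨e⟩ := ((Group.isNilpotent_of_finite_tfae (G := H)).out 0 4).1 hH
  rintro ⟨m, hm⟩
  have h0 : 0 < orderOf (x * y) := orderOf_pos _
  have hm0 : m ≠ 0 := by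
    rintro rfl
    omega
  have hw : orderOf ((x * y) ^ m) = p := by
    rw [orderOf_pow_of_dvd hm0 ⟨p, by rw [hm, mul_comm]⟩, hm]
    exact Nat.mul_div_cancel _ (Nat.pos_of_ne_zero hm0)
  have key : e.symm ((x * y) ^ m) = 1 := by
    funext q P
    have hq : Fact (q : ℕ).Prime := ⟨Nat.prime_of_mem_primeFactors q.2⟩
    let φ : H →* (P : Subgroup H) :=
      (Pi.evalMonoidHom (fun P : Sylow q H => ((P : Subgroup H) : Type)) P).comp
        ((Pi.evalMonoidHom (fun q : (Nat.card H).primeFactors =>
          (∀ P : Sylow q H, (P : Subgroup H))) q).comp e.symm.toMonoidHom)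
    have hφ : ∀ z : H, φ z = e.symm z q P := fun z => rfl
    have hone : ∀ z : H, ¬ (q : ℕ) ∣ orderOf z → φ z = 1 := by
      intro z hz
      by_contra h
      exact hz ((IsPGroup.dvd_orderOf P.2 h).trans (orderOf_map_dvd φ z))
    show e.symm ((x * y) ^ m) q P = 1
    rw [← hφ]
    by_cases hqp : (q : ℕ) = p
    · rw [map_pow, map_mul, hone x (by rw [hqp]; exact hx), hone y (by rw [hqp]; exact hy), mul_one,
        one_pow]
    · apply hone
      rw [hw]
      intro h
      exact hqp ((Nat.prime_dvd_prime_iff_eq hq.out hp.out).1 h)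
  have hw1 : (x * y) ^ m = 1 := by
    apply e.symm.injective
    rw [key, map_one]
  rw [hw1, orderOf_one] at hw
  exact hp.out.one_lt.ne hw

theorem ppart (hN : S_NTF) : S_PPART := by
  intro G _ ht hl p hp
  have hfin : ∀ s : Set G, s.Finite → Finite (Subgroup.closure s) := by
    intro s hs
    have h1 : Group.IsNilpotent (Subgroup.closure s) := hl s hs
    have h2 : Finite s := hs
    have h3 : Group.FG (Subgroup.closure s) := by
      have := Group.closure_finset_fg hs.toFinset
      rwa [Set.Finite.coe_toFinset] at this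
    exact hN (Subgroup.closure s) (fun g => Submonoid.isOfFinOrder_coe.1 (ht g.1))
  let N : Subgroup G :=
    { carrier := {g | ¬ p ∣ orderOf g}
      one_mem' := by
        show ¬ p ∣ orderOf (1 : G)
        rw [orderOf_one]
        exact hp.out.one_lt.ne' ∘ Nat.dvd_one.1
      mul_mem' := by
        intro x y hx hy
        have hs : ({x, y} : Set G).Finite := Set.toFinite _
        have h1 : Finite (Subgroup.closure ({x, y} : Set G)) := hfin _ hs
        have h2 : Group.IsNilpotent (Subgroup.closure ({x, y} : Set G)) := hl _ hs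
        have hxm : x ∈ Subgroup.closure ({x, y} : Set G) :=
          Subgroup.subset_closure (by simp)
        have hym : y ∈ Subgroup.closure ({x, y} : Set G) :=
          Subgroup.subset_closure (by simp)
        have h3 := ppart_aux (H := Subgroup.closure ({x, y} : Set G)) p ⟨x, hxm⟩ ⟨y, hym⟩
          (by rw [← Subgroup.orderOf_coe]; exact hx) (by rw [← Subgroup.orderOf_coe]; exact hy)
        rw [← Subgroup.orderOf_coe] at h3
        exact h3
      inv_mem' := by
        intro x hx
        show ¬ p ∣ orderOf x⁻¹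
        rw [orderOf_inv]
        exact hx }
  have hNm : ∀ g, g ∈ N ↔ ¬ p ∣ orderOf g := fun g => Iff.rfl
  have hNn : N.Normal := by
    constructor
    intro n hn g
    rw [hNm] at hn ⊢
    have : orderOf n = orderOf (g * n * g⁻¹) :=
      SemiconjBy.orderOf_eq g (by show g * n = g * n * g⁻¹ * g; rw [inv_mul_cancel_right])
    rwa [← this]
  refine ⟨N, hNn, hNm, ?_, ?_⟩
  · intro g
    obtain ⟨x, rfl⟩ := QuotientGroup.mk_surjective g
    have hx0 : orderOf x ≠ 0 := (orderOf_pos_iff.2 (ht x)).ne'
    obtain ⟨k, m, hm, hkm⟩ := Nat.exists_eq_pow_mul_and_not_dvd hx0 p hp.out.one_lt.ne'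
    refine ⟨k, ?_⟩
    rw [← QuotientGroup.mk_pow, QuotientGroup.eq_one_iff, hNm,
      orderOf_pow_of_dvd (pow_ne_zero _ hp.out.ne_zero) ⟨m, hkm⟩, hkm,
      Nat.mul_div_cancel_left _ (pow_pos hp.out.pos k)]
    exact hm
  · intro s hs
    have hsurj : Function.Surjective (QuotientGroup.mk' N) := QuotientGroup.mk'_surjective N
    obtain ⟨t, ht1, ht2⟩ : ∃ t : Set G, t.Finite ∧ QuotientGroup.mk' N '' t = s := by
      refine ⟨Function.surjInv hsurj '' s, hs.image _, ?_⟩
      rw [Set.image_image]
      have h5 : (fun x => QuotientGroup.mk' N (Function.surjInv hsurj x)) = id := by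
        funext x
        exact Function.surjInv_eq hsurj x
      rw [h5, Set.image_id]
    have h1 : Finite (Subgroup.closure t) := hfin t ht1
    rw [← ht2, ← MonoidHom.map_closure]
    have h2 : (((Subgroup.closure t).map (QuotientGroup.mk' N) : Subgroup (G ⧸ N)) :
      Set (G ⧸ N)).Finite := by
      rw [Subgroup.coe_map]
      exact Set.Finite.image _ (Set.toFinite _)
    exact h2

end Run7.h576.UP
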