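import Pool.Agent.Run7.h465.UP.Iface

/-!
# Finite p-groups have a p-order (piece EXI)
-/

set_option autoImplicit false

namespace Run7.h576.UP

open Run7.h465.UP

theorem exi (hC : S_COMB) : S_EXI := by
  intro p hp G _ _ hG
  have key : ∀ (n : ℕ) (G : Type) [Group G] [Finite G], Nat.card G = n → IsPGroup p G →
      Nonempty (POrd p G) := by
    intro n
    induction n using Nat.strong_induction_on with
    | _ n ih =>
      intro G _ _ hn hG
      rcases subsingleton_or_nontrivial G with hs | hs
      · exact ⟨{
          le := fun _ _ => True
          refl := fun _ => trivial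
          trans := fun _ _ _ _ _ => trivial
          total := fun _ _ => Or.inl trivial
          bot := fun x _ => Subsingleton.elim _ _
          mul := fun _ _ _ _ _ => trivial
          inv := fun _ _ _ => trivial
          comm := fun g x hx => absurd (Subsingleton.elim _ _) hx
          cyc := fun x y hy => absurd (Subsingleton.elim _ _) hy
          pow := fun x hx => absurd (Subsingleton.elim _ _) hx }⟩
      · have h1 : Nontrivial (Subgroup.center G) := hG.center_nontrivial
        obtain ⟨c, hc1⟩ := exists_ne (1 : Subgroup.center G)
        -- a central element of order `p`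
        have h2 : IsPGroup p (Subgroup.center G) := hG.to_subgroup _
        have h3 : p ∣ Nat.card (Subgroup.center G) := by
          obtain ⟨k, hk⟩ := (IsPGroup.iff_card).1 h2
          have h4 : 1 < Nat.card (Subgroup.center G) := Finite.one_lt_card
          rw [hk] at h4 ⊢
          have : k ≠ 0 := by
            rintro rfl
            simp at h4
          exact dvd_pow_self p this
        obtain ⟨z, hz⟩ := exists_prime_orderOf_dvd_card' (G := Subgroup.center G) p h3
        have hz1 : orderOf (z : G) = p := by
          rw [← hz]; exact Subgroup.orderOf_coe z
        have hzc : ∀ g : G, g * (z : G) = (z : G) * g := fun g => Subgroup.mem_center_iff.1 z.2 g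
        have hzn : (Subgroup.zpowers (z : G)).Normal := by
          constructor
          intro n hn g
          obtain ⟨k, rfl⟩ := hn
          refine ⟨k, ?_⟩
          have : Commute g ((z : G) ^ k) := Commute.zpow_right (hzc g) k
          show (z : G) ^ k = g * (z : G) ^ k * g⁻¹
          rw [this.eq, mul_inv_cancel_right]
        have hcard : Nat.card (G ⧸ Subgroup.zpowers (z : G)) < n := by
          have h5 := Subgroup.card_eq_card_quotient_mul_card_subgroup (Subgroup.zpowers (z : G))
          rw [Nat.card_zpowers, hz1, hn] at h5
          have h6 : 0 < Nat.card (G ⧸ Subgroup.zpowers (z : G)) := Nat.card_pos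
          have h7 : 2 ≤ p := hp.out.two_le
          nlinarith
        obtain ⟨oQ⟩ := ih _ hcard (G ⧸ Subgroup.zpowers (z : G)) rfl (hG.to_quotient _)
        have hker : ∀ x : G, QuotientGroup.mk' (Subgroup.zpowers (z : G)) x = 1 ↔
            ∃ k : ℤ, (z : G) ^ k = x := by
          intro x
          rw [QuotientGroup.mk'_apply, QuotientGroup.eq_one_iff]
          exact Iff.rfl
        have hpw : ∀ k : ℤ, (z : G) ^ (k * (p : ℤ)) = 1 := by
          intro k
          rw [mul_comm, zpow_mul, zpow_natCast, ← hz1, pow_orderOf_eq_one, one_zpow]
        obtain ⟨o, _⟩ := hC p G (G ⧸ Subgroup.zpowers (z : G)) oQ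
          (QuotientGroup.mk' (Subgroup.zpowers (z : G))) (fun x y => y = 1 → x = 1)
          (fun x _ h => h)
          (fun x y z _ _ _ h1 h2 h3 => h1 (h2 h3))
          (fun x y _ _ => by
            by_cases hx : x = 1
            · exact Or.inl (fun _ => hx)
            · exact Or.inr (fun h => absurd h hx))
          (fun x _ h => h rfl)
          (fun x y z _ _ _ h1 h2 h3 => by rw [h1 h3, h2 h3, mul_one])
          (fun x y _ _ h1 h2 => by rw [h1 h2, inv_one])
          (fun g x hx hx1 h => by
            obtain ⟨k, hk⟩ := (hker x).1 hx
            apply hx1
            apply h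
            have : Commute g ((z : G) ^ k) := Commute.zpow_right (hzc g) k
            rw [← hk, this.eq, mul_inv_cancel_right, mul_inv_cancel])
          (fun x y hx hy hy1 _ => by
            -- `y` generates the subgroup of order `p`
            obtain ⟨k, hk⟩ := (hker x).1 hx
            obtain ⟨l, hl⟩ := (hker y).1 hy
            have hpl : ¬ (p : ℤ) ∣ l := by
              rintro ⟨m, hm⟩
              apply hy1
              rw [← hl, hm, mul_comm, hpw]
            have hcop : IsCoprime (p : ℤ) l :=
              (Int.isCoprime_iff_gcd_eq_one.2 (by
                have := (Nat.Prime.coprime_iff_not_dvd hp.out).2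
                  (fun h => hpl (Int.natCast_dvd.2 h))
                simpa [Int.gcd] using this))
            obtain ⟨a, b, hab⟩ := hcop
            -- l b = 1 mod p
            have hmod : ∃ m : ℤ, k * b = m * (p : ℤ) + (((k * b) % (p : ℤ)).toNat : ℤ) := by
              refine ⟨(k * b) / (p : ℤ), ?_⟩
              have hp0 : (p : ℤ) ≠ 0 := by exact_mod_cast hp.out.ne_zero
              rw [Int.toNat_of_nonneg (Int.emod_nonneg _ hp0)]
              have := Int.mul_ediv_add_emod (k * b) (p : ℤ)
              linarith [mul_comm ((p : ℤ)) (k * b / (p : ℤ))]
            obtain ⟨m, hm⟩ := hmod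
            refine ⟨((k * b) % (p : ℤ)).toNat, ?_, ?_⟩
            · have hp0 : (0 : ℤ) < (p : ℤ) := by exact_mod_cast hp.out.pos
              have h8 := Int.emod_lt_of_pos (k * b) hp0
              have h9 := Int.emod_nonneg (k * b) hp0.ne'
              omega
            · intro h
              apply hy1
              apply h
              have e1 : k = l * (((k * b) % (p : ℤ)).toNat : ℤ) + (l * m + k * a) * (p : ℤ) := by
                have : (((k * b) % (p : ℤ)).toNat : ℤ) = k * b - m * (p : ℤ) := by linarith
                rw [this]
                linear_combination (-k) * hab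
              have e2 : x = y ^ ((k * b) % (p : ℤ)).toNat := by
                rw [← hk, ← hl, ← zpow_natCast, ← zpow_mul]
                conv_lhs => rw [e1]
                rw [zpow_add, hpw, mul_one]
              rw [← e2, mul_inv_cancel])
          (fun x hx hx1 h => by
            obtain ⟨k, hk⟩ := (hker x).1 hx
            apply hx1
            apply h
            rw [← hk, ← zpow_natCast, ← zpow_mul, hpw])
          hp.out.pos
        exact ⟨o⟩
  exact key _ G rfl hG

end Run7.h576.UP
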